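import Pool.Agent.Lib.MP_edb5be_nt.PD.Iface
import Pool.Agent.Lib.MP_edb5be_nt.EX.H22.Words

/-!
Module INJ (helper54): different words lead to different integers.
-/

set_option autoImplicit false

namespace Pool.Agent.Lib.MP_edb5be_nt.PD.H54

open Finset Pool.Agent.Lib.MP_edb5be_nt.EX Pool.Agent.Lib.MP_edb5be_nt.PD

/-- The number of odd terms among the first `s` terms of the trajectory of `z`. -/
def oc (z : ℤ) (s : ℕ) : ℕ := ∑ i ∈ range s, if Tc^[i] z % 2 = 0 then 0 else 1

theorem oc_add (z : ℤ) (s t : ℕ) : oc z (s + t) = oc z s + oc (Tc^[s] z) t := by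
  unfold oc
  rw [Finset.sum_range_add]
  congr 1
  refine Finset.sum_congr rfl fun i _ => ?_
  rw [show s + i = i + s from Nat.add_comm s i, Function.iterate_add_apply]

theorem iter_halve (x : ℤ) (j i : ℕ) (hi : i ≤ j) : Tc^[i] (2 ^ j * x) = 2 ^ (j - i) * x := by
  induction i with
  | zero => simp
  | succ i ih =>
    rw [Function.iterate_succ_apply', ih (by omega)]
    have h1 : j - i = (j - (i + 1)) + 1 := by omega
    rw [h1, pow_succ]
    unfold Tc
    have h2 : (2 ^ (j - (i + 1)) * 2 * x : ℤ) = 2 * (2 ^ (j - (i + 1)) * x) := by ring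
    rw [h2, if_pos (by omega)]
    omega

theorem oc_halve (x : ℤ) (j : ℕ) : oc (2 ^ j * x) j = 0 := by
  unfold oc
  refine Finset.sum_eq_zero fun i hi => ?_
  have hi' := Finset.mem_range.1 hi
  rw [iter_halve x j i hi'.le]
  have h1 : j - i = (j - i - 1) + 1 := by omega
  rw [h1, pow_succ]
  have h2 : (2 ^ (j - i - 1) * 2 * x : ℤ) = 2 * (2 ^ (j - i - 1) * x) := by ring
  rw [h2, if_pos (by omega)]

theorem oc_word (z : ℤ) : ∀ (u : List ℕ) (y : ℤ), (∀ a ∈ u, 1 ≤ a) →
    3 ^ u.length * z + cc u = 2 ^ u.sum * y → oc z u.sum = u.length := by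
  have hW := Pool.Agent.Lib.MP_edb5be_nt.EX.H22.words
  intro u
  induction u with
  | nil => intro y _ _; simp [oc]
  | cons a v ih =>
    intro y ha h
    have ha1 : 1 ≤ a := ha a (by simp)
    have hv : ∀ b ∈ v, 1 ≤ b := fun b hb => ha b (by simp [hb])
    obtain ⟨j, rfl⟩ : ∃ j, a = j + 1 := ⟨a - 1, by omega⟩
    simp only [List.length_cons, List.sum_cons, cc] at h
    push_cast at h
    have h1 : 3 * (3 ^ v.length * z + cc v) = 2 ^ v.sum * (2 ^ (j + 1) * y - 1) := by
      have e1 : (2 : ℤ) ^ (j + 1 + v.sum) = 2 ^ v.sum * 2 ^ (j + 1) := by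
        rw [pow_add]; ring
      have e2 : (3 : ℤ) ^ (v.length + 1) = 3 * 3 ^ v.length := by rw [pow_succ]; ring
      rw [e1, e2] at h
      linarith
    have h2 : (3 : ℤ) ∣ 2 ^ (j + 1) * y - 1 := by
      have h3 : (3 : ℤ) ∣ 2 ^ v.sum * (2 ^ (j + 1) * y - 1) := ⟨_, h1.symm⟩
      refine (IsCoprime.dvd_of_dvd_mul_left ?_ h3)
      exact IsCoprime.pow_right (by norm_num : IsCoprime (3 : ℤ) 2)
    obtain ⟨y1, hy1⟩ := h2
    have h4 : 3 ^ v.length * z + cc v = 2 ^ v.sum * y1 := by
      rw [hy1] at h1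
      linarith
    have h5 := hW.2.2.2.2 v hv y1 z h4
    have h6 := ih y1 hv h4
    have h7 : Tc y1 = 2 ^ j * y := by
      unfold Tc
      have e3 : (2 : ℤ) ^ (j + 1) * y = 2 * (2 ^ j * y) := by rw [pow_succ]; ring
      rw [e3] at hy1
      rw [if_neg (by omega)]
      omega
    have h8 : oc y1 (j + 1) = 1 := by
      rw [show j + 1 = 1 + j from Nat.add_comm _ _, oc_add, Function.iterate_one, h7, oc_halve]
      have e3 : (2 : ℤ) ^ (j + 1) * y = 2 * (2 ^ j * y) := by rw [pow_succ]; ring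
      rw [e3] at hy1
      simp only [oc, Finset.sum_range_one, Function.iterate_zero, id, add_zero]
      rw [if_neg (by omega)]
    rw [List.sum_cons, List.length_cons, show j + 1 + v.sum = v.sum + (j + 1) from Nat.add_comm _ _,
      oc_add, h5, h6, h8]

theorem inj : InjStatement := by
  intro y hy u u' hu hu' hA hA' hz
  have hW := Pool.Agent.Lib.MP_edb5be_nt.EX.H22.words
  have e1 : 3 ^ u.length * zz y u + cc u = 2 ^ u.sum * y := by
    unfold zz
    rw [Int.mul_ediv_cancel' hA]
    ring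
  have e2 : 3 ^ u'.length * zz y u + cc u' = 2 ^ u'.sum * y := by
    rw [hz]
    unfold zz
    rw [Int.mul_ediv_cancel' hA']
    ring
  have t1 := hW.2.2.2.2 u hu y _ e1
  have t2 := hW.2.2.2.2 u' hu' y _ e2
  have hs : u.sum = u'.sum := by
    rcases lt_trichotomy u.sum u'.sum with h | h | h
    · exfalso
      refine hy (u'.sum - u.sum) (by omega) ?_
      have : Tc^[(u'.sum - u.sum) + u.sum] (zz y u) = y := by
        rw [Nat.sub_add_cancel h.le]; exact t2
      rwa [Function.iterate_add_apply, t1] at this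
    · exact h
    · exfalso
      refine hy (u.sum - u'.sum) (by omega) ?_
      have : Tc^[(u.sum - u'.sum) + u'.sum] (zz y u) = y := by
        rw [Nat.sub_add_cancel h.le]; exact t1
      rwa [Function.iterate_add_apply, t2] at this
  have o1 := oc_word _ u y hu e1
  have o2 := oc_word _ u' y hu' e2
  have hl : u.length = u'.length := by rw [← o1, ← o2, hs]
  refine hW.2.2.2.1 u u' hu hu' hl hs ?_
  have h3 : (cc u : ℤ) = cc u' := by
    rw [hl] at e1
    rw [hs] at e1
    linarith
  exact_mod_cast h3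

end Pool.Agent.Lib.MP_edb5be_nt.PD.H54
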